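import Mathlib
import Pool.Agent.Y887.DE.PtB

/-!
# Every pattern is realised by consecutive integers with exactly prescribed numbers of prime factors
# and of divisors

For every `k ≥ 2` there are `r₀`, `T ≥ 1` and `K` such that EVERY set `H` of `k` non-negative integers,
admissible or not, is realised by integers with an exactly prescribed number of distinct prime factors and an
exactly prescribed number of divisors: for all finite multisets `t h` (`h ∈ H`) of integers at least two and all
`N` and `D` there are at least `X / (log X) ^ K` integers `n ≤ X` such that for all `h ∈ H` the number `n + h`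
has EXACTLY `r₀ + #(t h)` distinct prime factors and EXACTLY `T ∏ (t h)` divisors, and all the other integers
within the distance `D` of `n` have at least `N` distinct prime factors. So, for every `r ≥ r₀`, every pattern of
`k` shifts is realised infinitely often by CONSECUTIVE members of the set of the integers with exactly `r`
distinct prime factors, and for all positive integers `s` (or `s_h`, `h ∈ H`) by consecutive members of the set of
the integers with exactly `T s` divisors (`d (n + h) = T s_h`).

This is a special case of a theorem on all multiplicative functions whose values at the prime powers `p ^ e`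
depend only on `e` and for which the parity obstruction of the sieve is absent (some relation
`∏ f (u_i) = ∏ f (v_j)` has `∑ u_i = ∑ v_j + 1`); the values at the members of the pattern are prescribed
independently of each other.
-/

set_option autoImplicit false

namespace Pool.Agent.Results.MP_3ec731_nt.ExactNumberOfPrimeFactors

open Finset Filter

/-- The value at `n` of the multiplicative function whose value at every prime power `p ^ e`, `e ≥ 1`, is
`f e`, with values in a commutative group. -/
def F {Γ : Type} [CommGroup Γ] (f : ℕ → Γ) (n : ℕ) : Γ :=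
  ∏ p ∈ n.primeFactors, f (n.factorization p)

/-- the first part of the theorem -/
def General : Prop :=
  ∀ k : ℕ, 2 ≤ k → ∀ (Γ : Type) [CommGroup Γ] (f : ℕ → Γ) (u v : Multiset ℕ),
    (∀ j ∈ u, 1 ≤ j) → (∀ j ∈ v, 1 ≤ j) → u.sum = v.sum + 1 → (u.map f).prod = (v.map f).prod →
    ∃ (Φ : Γ) (K : ℕ), ∀ H : Finset ℕ, H.card = k →
      ∀ γ : ℕ → Γ, (∀ h ∈ H, γ h ∈ Submonoid.closure (f '' {j | 1 ≤ j})) →
      ∀ N D : ℕ, (∀ h ∈ H, h ≤ D) → ∃ Q C : ℕ, N ≤ Q ∧ ∀ᶠ X : ℕ in atTop,
        (X : ℝ) / Real.log X ^ K ≤ ({n : ℕ | n ≤ X ∧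
          (∀ m : ℕ, n ≤ m + D → m ≤ n + D → (∀ h ∈ H, m ≠ n + h) →
            N ≤ (m.primeFactors.filter (fun p => p ≤ Q)).card) ∧
          ∀ h ∈ H, F f (n + h) = Φ * γ h ∧
            (∀ p : ℕ, p.Prime → p ∣ n + h → Q < p ∨ p ≤ k ∧ ∀ r < p, ∃ h' ∈ H, h' % p = r) ∧
            ∃ c s : ℕ, n + h = c * s ∧ c ≤ C ∧ Squarefree s ∧
              ∀ p : ℕ, p.Prime → p ∣ s → X < p ^ K}.ncard : ℝ)

/-- the second part of the theorem -/
def Exact : Prop :=
  ∀ k : ℕ, 2 ≤ k → ∃ r₀ T K : ℕ, 1 ≤ T ∧ ∀ H : Finset ℕ, H.card = k →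
    ∀ t : ℕ → Multiset ℕ, (∀ h ∈ H, ∀ j ∈ t h, 2 ≤ j) → ∀ N D : ℕ, (∀ h ∈ H, h ≤ D) →
    ∀ᶠ X : ℕ in atTop,
      (X : ℝ) / Real.log X ^ K ≤ ({n : ℕ | 1 ≤ n ∧ n ≤ X ∧
        (∀ h ∈ H, (n + h).primeFactors.card = r₀ + Multiset.card (t h) ∧
          (n + h).divisors.card = T * (t h).prod) ∧
        ∀ m : ℕ, n ≤ m + D → m ≤ n + D → (∀ h ∈ H, m ≠ n + h) → N ≤ m.primeFactors.card}.ncard : ℝ)

lemma general : General := fun k hk Γ _ f u v hu hv hsum huv =>
  Pool.Agent.Y887.DE.pattern3 k hk f u v hu hv hsum huv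

/-- the function `n ↦ (number of the prime factors, number of the divisors)` at the prime powers -/
def fd (e : ℕ) : Multiplicative ℤ × ℚˣ :=
  (Multiplicative.ofAdd (1 : ℤ), Units.mk0 ((e : ℚ) + 1) (by positivity))

lemma F_fst (n : ℕ) : (F fd n).1 = Multiplicative.ofAdd (n.primeFactors.card : ℤ) := by
  unfold F fd
  rw [Prod.fst_prod, prod_const, ← ofAdd_nsmul]
  simp

lemma F_snd {n : ℕ} (hn : n ≠ 0) : (((F fd n).2 : ℚˣ) : ℚ) = (n.divisors.card : ℚ) := by
  unfold F fd
  rw [Prod.snd_prod, Nat.card_divisors hn]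
  push_cast
  simp

lemma gam_fst (t : Multiset ℕ) : ((t.map (fun j => fd (j - 1))).prod).1 =
    Multiplicative.ofAdd (Multiset.card t : ℤ) := by
  induction t using Multiset.induction_on with
  | empty => simp
  | cons a s ih =>
    rw [Multiset.map_cons, Multiset.prod_cons, Prod.fst_mul, ih]
    unfold fd
    simp only [Multiset.card_cons]
    rw [← ofAdd_add]
    congr 1
    push_cast
    ring

lemma gam_snd (t : Multiset ℕ) (ht : ∀ j ∈ t, 2 ≤ j) :
    ((((t.map (fun j => fd (j - 1))).prod).2 : ℚˣ) : ℚ) = ((t.prod : ℕ) : ℚ) := by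
  induction t using Multiset.induction_on with
  | empty => simp
  | cons a s ih =>
    rw [Multiset.map_cons, Multiset.prod_cons, Prod.snd_mul, Units.val_mul,
      ih fun j hj => ht j (Multiset.mem_cons_of_mem hj), Multiset.prod_cons]
    have ha := ht a (Multiset.mem_cons_self a s)
    unfold fd
    simp only [Units.val_mk0]
    have e : ((a - 1 : ℕ) : ℚ) + 1 = a := by
      have : a - 1 + 1 = a := by omega
      exact_mod_cast this
    rw [e]
    push_cast
    ring

/-- many elements, even without zero -/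
lemma big (K : ℕ) : ∀ᶠ X : ℕ in atTop, (X : ℝ) / Real.log X ^ (K + 1) + 1 ≤
    (X : ℝ) / Real.log X ^ K := by
  have h1 : Tendsto (fun X : ℕ => Real.log X) atTop atTop :=
    Real.tendsto_log_atTop.comp tendsto_natCast_atTop_atTop
  have h2 : Tendsto (fun X : ℕ => Real.log X ^ (K + 1) / X) atTop (nhds 0) := by
    have := (isLittleO_log_rpow_rpow_atTop (s := 1) ((K + 1 : ℕ) : ℝ) one_pos).tendsto_div_nhds_zero
    refine (this.comp tendsto_natCast_atTop_atTop).congr fun X => ?_
    simp only [Function.comp, Real.rpow_natCast, Real.rpow_one]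
  filter_upwards [h1.eventually_ge_atTop 2, h2.eventually (gt_mem_nhds (one_pos)),
    eventually_ge_atTop 1] with X a1 a2 a3
  have hX : (0 : ℝ) < X := by exact_mod_cast a3
  have hl : 0 < Real.log X := by linarith
  have hp : 0 < Real.log X ^ (K + 1) := by positivity
  rw [div_lt_one hX] at a2
  have e : (X : ℝ) / Real.log X ^ K = Real.log X * ((X : ℝ) / Real.log X ^ (K + 1)) := by
    rw [pow_succ]
    field_simp
  rw [e]
  have h3 : 1 ≤ (X : ℝ) / Real.log X ^ (K + 1) := by
    rw [le_div_iff₀ hp, one_mul]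
    exact a2.le
  nlinarith

lemma exact_of : Exact := by
  intro k hk
  obtain ⟨Φ, K, h⟩ := general k hk (Multiplicative ℤ × ℚˣ) fd {1, 5} {2, 3}
    (by simp) (by simp) (by simp) (by
      unfold fd
      ext
      · simp
      · simp
        norm_num)
  have hbig := big K
  -- the constants are values of the two functions
  have hex : ∃ r₀ T : ℕ, 1 ≤ T ∧ Φ.1 = Multiplicative.ofAdd (r₀ : ℤ) ∧ ((Φ.2 : ℚˣ) : ℚ) = (T : ℚ) := by
    obtain ⟨Q, C, -, hX⟩ := h (range k) (card_range k) (fun _ => 1)
      (fun h _ => Submonoid.one_mem _) 0 k (fun h hh => (mem_range.1 hh).le)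
    obtain ⟨X, h1, h2, h3⟩ := (hX.and (hbig.and (eventually_ge_atTop 3))).exists
    obtain ⟨S, hS⟩ : ∃ S : Set ℕ, S = {n : ℕ | n ≤ X ∧
          (∀ m : ℕ, n ≤ m + k → m ≤ n + k → (∀ h ∈ range k, m ≠ n + h) →
            0 ≤ (m.primeFactors.filter (fun p => p ≤ Q)).card) ∧
          ∀ h ∈ range k, F fd (n + h) = Φ * 1 ∧
            (∀ p : ℕ, p.Prime → p ∣ n + h → Q < p ∨ p ≤ k ∧ ∀ r < p, ∃ h' ∈ range k, h' % p = r) ∧
            ∃ c s : ℕ, n + h = c * s ∧ c ≤ C ∧ Squarefree s ∧
              ∀ p : ℕ, p.Prime → p ∣ s → X < p ^ K} := ⟨_, rfl⟩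
    rw [← hS] at h1
    have hfin : S.Finite := by
      rw [hS]
      exact (Set.finite_Iic X).subset fun n hn => hn.1
    have hpos : (0 : ℝ) < (X : ℝ) / Real.log X ^ (K + 1) := by
      have h4 : (3 : ℝ) ≤ X := by exact_mod_cast h3
      have h5 : 0 < Real.log X := Real.log_pos (by linarith)
      positivity
    have hc : (1 : ℝ) < S.ncard := by linarith
    have hc' : 1 < S.ncard := by exact_mod_cast hc
    obtain ⟨n, hn, hn0⟩ := Set.exists_ne_of_one_lt_ncard hc' 0
    rw [hS] at hn
    obtain ⟨-, -, h4⟩ := hn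
    obtain ⟨h5, -⟩ := h4 0 (mem_range.2 (by omega))
    rw [add_zero, mul_one] at h5
    refine ⟨n.primeFactors.card, n.divisors.card, ?_, ?_, ?_⟩
    · exact Finset.card_pos.2 ⟨1, Nat.one_mem_divisors.2 hn0⟩
    · rw [← h5, F_fst]
    · rw [← h5, F_snd hn0]
  obtain ⟨r₀, T, hT, hΦ1, hΦ2⟩ := hex
  refine ⟨r₀, T, K + 1, hT, fun H hH t ht N D hD => ?_⟩
  obtain ⟨Q, C, -, hX⟩ := h H hH (fun h => ((t h).map (fun j => fd (j - 1))).prod)
    (fun h hh => by
      refine Submonoid.multiset_prod_mem _ _ fun a ha => ?_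
      rw [Multiset.mem_map] at ha
      obtain ⟨j, hj, rfl⟩ := ha
      exact Submonoid.subset_closure ⟨j - 1, by
        have := ht h hh j hj
        show 1 ≤ j - 1
        omega, rfl⟩) N D hD
  filter_upwards [hX, hbig] with X hX hb
  have h1 : (X : ℝ) / Real.log X ^ (K + 1) + 1 ≤ _ := hb.trans hX
  refine le_of_add_le_add_right (h1.trans ?_)
  have h2 : {n : ℕ | n ≤ X ∧
          (∀ m : ℕ, n ≤ m + D → m ≤ n + D → (∀ h ∈ H, m ≠ n + h) →
            N ≤ (m.primeFactors.filter (fun p => p ≤ Q)).card) ∧
          ∀ h ∈ H, F fd (n + h) = Φ * ((t h).map (fun j => fd (j - 1))).prod ∧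
            (∀ p : ℕ, p.Prime → p ∣ n + h → Q < p ∨ p ≤ k ∧ ∀ r < p, ∃ h' ∈ H, h' % p = r) ∧
            ∃ c s : ℕ, n + h = c * s ∧ c ≤ C ∧ Squarefree s ∧
              ∀ p : ℕ, p.Prime → p ∣ s → X < p ^ K} ⊆
      insert 0 {n : ℕ | 1 ≤ n ∧ n ≤ X ∧
        (∀ h ∈ H, (n + h).primeFactors.card = r₀ + Multiset.card (t h) ∧
          (n + h).divisors.card = T * (t h).prod) ∧
        ∀ m : ℕ, n ≤ m + D → m ≤ n + D → (∀ h ∈ H, m ≠ n + h) → N ≤ m.primeFactors.card} := by
    rintro n ⟨h1, h2, h3⟩
    rcases Nat.eq_zero_or_pos n with rfl | hn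
    · exact Set.mem_insert _ _
    refine Set.mem_insert_of_mem _ ⟨hn, h1, fun h hh => ?_,
      fun m a b c => (h2 m a b c).trans (card_filter_le _ _)⟩
    have h4 := (h3 h hh).1
    constructor
    · have h5 := congrArg (fun g => Multiplicative.toAdd g.1) h4
      simp only [Prod.fst_mul, F_fst, hΦ1, gam_fst, toAdd_mul, toAdd_ofAdd] at h5
      exact_mod_cast h5
    · have h5 := congrArg (fun g => ((g.2 : ℚˣ) : ℚ)) h4
      simp only [Prod.snd_mul, Units.val_mul] at h5
      rw [F_snd (by omega), hΦ2, gam_snd (t h) (ht h hh)] at h5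
      exact_mod_cast h5
  have hfin : {n : ℕ | 1 ≤ n ∧ n ≤ X ∧
        (∀ h ∈ H, (n + h).primeFactors.card = r₀ + Multiset.card (t h) ∧
          (n + h).divisors.card = T * (t h).prod) ∧
        ∀ m : ℕ, n ≤ m + D → m ≤ n + D → (∀ h ∈ H, m ≠ n + h) → N ≤ m.primeFactors.card}.Finite :=
    (Set.finite_Iic X).subset fun n hn => hn.2.1
  exact_mod_cast (Set.ncard_le_ncard h2 (hfin.insert 0)).trans (Set.ncard_insert_le _ _)

/-- **Theorem.**

(1) Let `k ≥ 2` and let `F` be the multiplicative function with the values `f e` at all the prime powers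
`p ^ e`, with values in a commutative group, such that for some finite multisets `u`, `v` of positive integers
with `∑ u = ∑ v + 1` the products of the `f j`, `j ∈ u`, and of the `f j`, `j ∈ v`, are equal. There are an
element `Φ` of the group and a number `K` such that for every set `H` of `k` non-negative integers, all elements
`γ h` (`h ∈ H`) of the monoid generated by the `f j`, all `N` and all `D ≥ max H` there are `Q ≥ N` and `C` such
that for all large `X` at least `X / (log X) ^ K` integers `n ≤ X` have these properties: every integer within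
the distance `D` of `n` and not of the form `n + h`, `h ∈ H`, has at least `N` prime factors `≤ Q`; for `h ∈ H`,
`F (n + h) = Φ * γ h`, `n + h` has no prime factor `≤ Q` except possibly primes `p ≤ k` modulo which `H` meets
every residue class (there are none if `H` is admissible), and `n + h = c * s` with `c ≤ C`, `s` squarefree with
all prime factors `> X ^ (1 / K)`.

(2) For every `k ≥ 2` there are `r₀`, `T ≥ 1` and `K` such that for every set `H` of `k` non-negative integers,
all finite multisets `t h` (`h ∈ H`) of integers at least two, all `N` and all `D ≥ max H`, for all large `X`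
at least `X / (log X) ^ K` positive integers `n ≤ X` are such that for all `h ∈ H` the number `n + h` has
exactly `r₀ + #(t h)` distinct prime factors and exactly `T ∏ (t h)` divisors, and all the other integers within
the distance `D` of `n` have at least `N` distinct prime factors. -/
theorem result : General ∧ Exact :=
  ⟨general, exact_of⟩

end Pool.Agent.Results.MP_3ec731_nt.ExactNumberOfPrimeFactors
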