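import Mathlib
import Pool.Agent.N790.BP.Arr

/-!
# Up to bounded shifts, most rows of every infinite array belong to one infinite exact pattern

Let `(k_j)` and `(m_j)` be any sequences of natural numbers, `ε > 0`, `q ≥ 1` and `r` prime to `q`. There are
numbers `C_0, C_1, C_2, …`, which depend on nothing else, with the following property.

For EVERY sequence `V_0, V_1, V_2, …` of finite sets of integers with `|V_j| ≤ k_j` there is a set `S` of
multiples of `q` such that

* `S` is an exact pattern: for every finite set `T` of integers there are infinitely many `n ≡ r` modulo `q`
  such that the primes in `n + T` are exactly the numbers `n + s`, `s ∈ S ∩ T` (with `T` an interval: the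
  elements of `S ∩ T` are the pattern of consecutive primes);
* for most `j` the set `S` has at least `m_j` elements within distance `C_j` of all but at most `ε |V_j|` of the
  elements of `V_j` (of all of them, if `|V_j| < 1 / ε`): the set of these `j` has upper density at least
  `1 - ε`, and more generally a weight of at least `1 - ε` for infinitely many of any given finitely supported
  probability weights `p_0, p_1, …` on the natural numbers.

For one set `V` the corresponding statement (some pattern of consecutive primes follows `V` up to a bounded
error) is in the starting files; for an infinite sequence of integers it was only known that an infinite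
subsequence, which one does not know, follows an infinite pattern of primes.

The proof. (1) `Pool.Agent.N790.BP.Leaf`, `Nest`: by the block theorem of the starting files
(`Pool.Agent.H361R2.Inf`, Maynard's sieve with blocks and finitely additive measures) an exact pattern meets
intervals of total weight `1 / 500`, for any weight on finitely many intervals the `i`-th of which has a length
`ℓ_i` which depends on `i` only. (2) `Pool.Agent.N790.BP.Conf`: if the theorem (with `k_j = m_j = 1`) were false
for all sequences `(C_j)`, one could put a copy of a bad configuration in each interval of a bad configuration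
(the lengths of the intervals being the diameters of the copies to be put there, which do not depend on the
positions); after `d` such steps every exact pattern meets intervals of total weight at most `(1 - ε) ^ d` only,
which contradicts (1). (3) `Pool.Agent.N790.BP.Lim`: by duality there are probability distributions on the exact
patterns for which each of the first `N` intervals is met with probability at least `1 - ε`; an ultralimit is a
finitely additive measure, and the exact pattern is found with the finitely additive intersectivity lemma of the
starting files. (4) `Pool.Agent.N790.BP.Arr`: clusters and arrays.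
-/

set_option autoImplicit false

namespace Pool.Agent.Results.MP_3ec731_nt.MostRowsOfEveryArray

/-- `S` is an exact pattern for the primes congruent to `r` modulo `q` -/
def ExactPattern (q : ℕ) (r : ℤ) (S : Set ℤ) : Prop :=
  (∀ a ∈ S, (q : ℤ) ∣ a) ∧ ∀ T : Finset ℤ,
    {n : ℕ | (n : ℤ) ≡ r [ZMOD q] ∧ ∀ t ∈ T, (Nat.Prime ((n : ℤ) + t).toNat ↔ t ∈ S)}.Infinite

open Classical in
/-- the elements `v` of `V` such that `S` has at least `m` elements in `[v, v + c]` -/
noncomputable def followed (S : Set ℤ) (V : Finset ℤ) (m c : ℕ) : Finset ℤ :=
  V.filter (fun v => m ≤ (S ∩ Set.Icc v (v + c)).ncard)

open Classical in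
theorem result (q : ℕ) (r : ℤ) (hq : 1 ≤ q) (hqr : IsCoprime r (q : ℤ)) (k m : ℕ → ℕ) (ε : ℝ) (hε : 0 < ε) :
    ∃ C : ℕ → ℕ, ∀ V : ℕ → Finset ℤ, (∀ j, (V j).card ≤ k j) →
      ∀ (N : ℕ → ℕ) (p : ℕ → ℕ → ℝ), (∀ s j, 0 ≤ p s j) → (∀ s, ∑ j ∈ Finset.range (N s), p s j = 1) →
      ∃ S : Set ℤ, ExactPattern q r S ∧ ∃ᶠ s in Filter.atTop, 1 - ε ≤
        ∑ j ∈ (Finset.range (N s)).filter
          (fun j => (1 - ε) * (V j).card ≤ (followed S (V j) (m j) (C j)).card), p s j :=
  Pool.Agent.N790.BP.arrays q r hq hqr k m ε hε

end Pool.Agent.Results.MP_3ec731_nt.MostRowsOfEveryArray
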