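import Pool.Agent.N688.RP.Two

/-!
# Almost every element of a Bohr neighbourhood is a gap in richly many vectors of consecutive gaps
-/

set_option autoImplicit false

namespace Pool.Agent.Results.MP_3ec731_nt.RichBohrGaps

open Filter

/-- `R` is a set of increasing vectors of `n` primes such that among any `m` consecutive primes there are `n`
which form an element of `R`. Example: `R` = the strings of `n` consecutive primes, `m = n`. -/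
def Unavoidable {n : ℕ} (m : ℕ) (R : Set (Fin n → ℕ)) : Prop :=
  (∀ v ∈ R, StrictMono v ∧ ∀ i, (v i).Prime) ∧
    ∀ j : ℕ, ∃ v ∈ R, ∀ i, ∃ l < m, v i = Nat.nth Nat.Prime (j + l)

/-- the first entries of the vectors `v` in `R` whose entries are `≡ a (mod q)`, which have the gaps
`w 0, w 1, …`, in this order, and all whose differences `v j - v i`, `i < j`, are in `A` -/
def Vecs {n : ℕ} (R : Set (Fin (n + 1) → ℕ)) (q a : ℕ) (A : Set ℕ) (w : Fin n → ℕ) : Set ℕ :=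
  {p | ∃ v ∈ R, v 0 = p ∧ (∀ j, v j ≡ a [MOD q]) ∧ (∀ j : Fin n, v j.succ = v j.castSucc + w j) ∧
    ∀ i j, i < j → v j - v i ∈ A}

/-- for every `η > 0` there are arbitrarily large `x` such that at least `x ^ (1 - η)` of the vectors of
`Vecs R q a A w` start at a prime `p ≤ x` -/
def Often {n : ℕ} (R : Set (Fin (n + 1) → ℕ)) (q a : ℕ) (A : Set ℕ) (w : Fin n → ℕ) : Prop :=
  ∀ η : ℝ, 0 < η → ∃ᶠ x : ℝ in atTop,
    x ^ (1 - η) ≤ ({p : ℕ | p ∈ Vecs R q a A w ∧ (p : ℝ) ≤ x}.ncard : ℝ)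

/-- the set `W` of vectors has upper Banach density at least `c`: for arbitrarily large `L` there is a box of
side `L` that contains at least `c L ^ k` elements of `W` -/
def Rich {k : ℕ} (W : Set (Fin k → ℕ)) (c : ℝ) : Prop :=
  ∀ L₀ : ℕ, ∃ L : ℕ, L₀ ≤ L ∧ ∃ u : Fin k → ℕ,
    c * (L : ℝ) ^ k ≤ ({g : Fin k → ℕ | (∀ j, u j < g j ∧ g j ≤ u j + L) ∧ g ∈ W}.ncard : ℝ)

/-- the Bohr neighbourhood of zero with frequencies `Θ` and radius `ρ`: the `d` such that for every `θ` in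
`Θ` the distance of `d * θ` to the nearest integer is less than `ρ` -/
def Bohr (Θ : Finset ℝ) (ρ : ℝ) : Set ℕ := {d | ∀ θ ∈ Θ, |(d : ℝ) * θ - round ((d : ℝ) * θ)| < ρ}

theorem rich_mono {k : ℕ} {W : Set (Fin k → ℕ)} {c c' : ℝ} (h : c' ≤ c) (hW : Rich W c) :
    Rich W c' := by
  intro L₀
  obtain ⟨L, hL, u, hu⟩ := hW L₀
  exact ⟨L, hL, u, (mul_le_mul_of_nonneg_right h (by positivity)).trans hu⟩

/-- Let `R` be a set of vectors of `k + 2` primes with an element among any `m` consecutive primes (for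
example the strings of `k + 2` consecutive primes), `a` coprime to `q` and `A` an arbitrary set of natural
numbers. There are `c > 0` and a Bohr neighbourhood of zero, which has bounded gaps, such that almost all (in
the sense of Banach density) elements `d` of `A` in it have the two properties: the vectors `g` of `k` numbers
such that `(d, g)`, respectively `(g, d)`, is the vector of the gaps of many elements of `R`, which are
`≡ a (mod q)` and have all their differences in `A`, have upper Banach density at least `c`. -/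
theorem result (k m : ℕ) (R : Set (Fin (k + 1 + 1) → ℕ)) (hR : Unavoidable m R) (q a : ℕ) (hq : 1 ≤ q)
    (ha : a.Coprime q) (A : Set ℕ) :
    ∃ c : ℝ, 0 < c ∧ ∃ (Θ : Finset ℝ) (ρ : ℝ), 0 < ρ ∧
    (∃ L : ℕ, ∀ u : ℕ, ∃ d : ℕ, u < d ∧ d ≤ u + L ∧ d ∈ Bohr Θ ρ) ∧
    ∀ ε : ℝ, 0 < ε → ∃ L₀ : ℕ, ∀ L : ℕ, L₀ ≤ L → ∀ u : ℕ,
      ({d : ℕ | u < d ∧ d ≤ u + L ∧ d ∈ Bohr Θ ρ ∧ d ∈ A ∧
        ¬ (Rich {g : Fin k → ℕ | Often R q a A (Fin.cons d g : Fin (k + 1) → ℕ)} c ∧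
          Rich {g : Fin k → ℕ | Often R q a A (Fin.snoc g d : Fin (k + 1) → ℕ)} c)}.ncard : ℝ) ≤
        ε * L := by
  classical
  have hR' : Pool.Agent.N688.RP.Una m R := hR
  obtain ⟨M₁, hM₁, c₁, hc₁, T₁, ρ₁, hρ₁, hn₁⟩ :=
    Pool.Agent.N688.RP.right hR' (by omega : 0 < q) ha A
  obtain ⟨M₂, hM₂, c₂, hc₂, T₂, ρ₂, hρ₂, hn₂⟩ :=
    Pool.Agent.N688.RP.left hR' (by omega : 0 < q) ha A
  obtain ⟨Θ₁, ρ₁', hρ₁', h₁⟩ := Pool.Agent.TH402.FB.transfer hM₁ (by omega : 0 < q) hρ₁ hn₁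
  obtain ⟨Θ₂, ρ₂', hρ₂', h₂⟩ := Pool.Agent.TH402.FB.transfer hM₂ (by omega : 0 < q) hρ₂ hn₂
  refine ⟨min c₁ c₂, lt_min hc₁ hc₂, Θ₁ ∪ Θ₂, min ρ₁' ρ₂', lt_min hρ₁' hρ₂',
    Pool.Agent.TH402.FB.syn _ _ (lt_min hρ₁' hρ₂'), fun ε hε => ?_⟩
  obtain ⟨L₁, hL₁⟩ := h₁ (ε / 2) (by positivity)
  obtain ⟨L₂, hL₂⟩ := h₂ (ε / 2) (by positivity)
  refine ⟨max L₁ L₂, fun L hL u => ?_⟩
  have h3 := hL₁ L ((le_max_left _ _).trans hL) u
  have h4 := hL₂ L ((le_max_right _ _).trans hL) u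
  obtain ⟨E₁, hE₁⟩ : ∃ E : Set ℕ, E = {d : ℕ | u < d ∧ d ≤ u + L ∧
    (∀ θ ∈ Θ₁, |(d : ℝ) * θ - round ((d : ℝ) * θ)| < ρ₁') ∧
    ¬ ∃ y ∈ {y : ℕ | q * y ∈ A → Pool.Agent.N688.RP.Rich {g : Fin k → ℕ |
      Pool.Agent.N688.RP.Often R q a A (Fin.cons (q * y) g : Fin (k + 1) → ℕ)} c₁},
      d = q * y} := ⟨_, rfl⟩
  obtain ⟨E₂, hE₂⟩ : ∃ E : Set ℕ, E = {d : ℕ | u < d ∧ d ≤ u + L ∧
    (∀ θ ∈ Θ₂, |(d : ℝ) * θ - round ((d : ℝ) * θ)| < ρ₂') ∧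
    ¬ ∃ y ∈ {y : ℕ | q * y ∈ A → Pool.Agent.N688.RP.Rich {g : Fin k → ℕ |
      Pool.Agent.N688.RP.Often R q a A (Fin.snoc g (q * y) : Fin (k + 1) → ℕ)} c₂},
      d = q * y} := ⟨_, rfl⟩
  rw [← hE₁] at h3
  rw [← hE₂] at h4
  have hf₁ : E₁.Finite := by
    rw [hE₁]
    exact (Set.finite_le_nat (u + L)).subset fun d hd => hd.2.1
  have hf₂ : E₂.Finite := by
    rw [hE₂]
    exact (Set.finite_le_nat (u + L)).subset fun d hd => hd.2.1
  have hsub : {d : ℕ | u < d ∧ d ≤ u + L ∧ d ∈ Bohr (Θ₁ ∪ Θ₂) (min ρ₁' ρ₂') ∧ d ∈ A ∧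
      ¬ (Rich {g : Fin k → ℕ | Often R q a A (Fin.cons d g : Fin (k + 1) → ℕ)} (min c₁ c₂) ∧
        Rich {g : Fin k → ℕ | Often R q a A (Fin.snoc g d : Fin (k + 1) → ℕ)} (min c₁ c₂))} ⊆
      E₁ ∪ E₂ := by
    rintro d ⟨g1, g2, g3, g4, g5⟩
    rw [not_and_or] at g5
    rcases g5 with g5 | g5
    · left
      rw [hE₁]
      refine ⟨g1, g2, fun θ hθ => (g3 θ (Finset.mem_union_left _ hθ)).trans_le (min_le_left _ _), ?_⟩
      rintro ⟨y, hy, rfl⟩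
      exact g5 (rich_mono (min_le_left _ _) (hy g4))
    · right
      rw [hE₂]
      refine ⟨g1, g2, fun θ hθ => (g3 θ (Finset.mem_union_right _ hθ)).trans_le (min_le_right _ _), ?_⟩
      rintro ⟨y, hy, rfl⟩
      exact g5 (rich_mono (min_le_right _ _) (hy g4))
  have h5 := Set.ncard_le_ncard hsub (hf₁.union hf₂)
  have h6 := Set.ncard_union_le E₁ E₂
  have h7 : ((({d : ℕ | u < d ∧ d ≤ u + L ∧ d ∈ Bohr (Θ₁ ∪ Θ₂) (min ρ₁' ρ₂') ∧ d ∈ A ∧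
      ¬ (Rich {g : Fin k → ℕ | Often R q a A (Fin.cons d g : Fin (k + 1) → ℕ)} (min c₁ c₂) ∧
        Rich {g : Fin k → ℕ | Often R q a A (Fin.snoc g d : Fin (k + 1) → ℕ)} (min c₁ c₂))}.ncard) : ℕ) : ℝ) ≤
      (E₁.ncard : ℝ) + E₂.ncard := by
    exact_mod_cast h5.trans h6
  linarith

end Pool.Agent.Results.MP_3ec731_nt.RichBohrGaps
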