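import Mathlib
import Pool.Agent.N790.GS.Nth

/-!
# Three gaps or long strings: the additive structure of the gaps between consecutive primes

Let `D` be the set of the even numbers `d` (for a general even modulus `q`: of the multiples `d` of `q`) for
which the pattern `{0, d}` is realised by consecutive primes infinitely often, for primes in a given reduced
class modulo `q`. The conjecture predicts that `D` contains all of them. The theorem (for `q = 2`): at least
one of the following holds.

* Every even number is `± (d₁ + d₂ - d₃)` with `d₁, d₂, d₃` in `D`.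
* Every multiple of `4` is `± (d₁ + d₂ - d₃)`, and `D` contains arbitrarily long strings
  `d, d + 4, d + 8, …, d + 4 L` of consecutive multiples of `4`.
* Every multiple of `6` is `± (d₁ + d₂ - d₃)`, and `D` contains arbitrarily long strings of consecutive
  multiples of `6`, or arbitrarily long strings of consecutive multiples of `18`.

The proof. The coloured Maynard-Tao theorem with exact patterns (starting files, `Pool.Agent.R494.CG`: two of any
four classes of shifts are hit) is used through a limit: for an ultrafilter on the indices of a rapidly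
increasing sequence `x`, let `P` be the set of the `z` for which `x j - x i + z` is in `D` for almost all `i`
and `j`. Then `P` has the property that among any four integers `e₀, e₁, e₂, e₃` (in this order) which miss a
residue class modulo `3` there are two with `e_b - e_a ∈ P`. The new point is the rigidity of such sets: if one
integer `h` is not `± (p + q - r)` with `p, q, r ∈ P`, then `p + q ± h ∉ P` for all `p, q ∈ P`, while one of
`y - h, y, y + h` is in `P`, and this makes `P` (or its multiples of `3`) closed under addition, hence a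
subgroup, of index two or three.
-/

set_option autoImplicit false

namespace Pool.Agent.Results.MP_3ec731_nt.ThreeGapsOrLongStrings

/-- for infinitely many `s` the consecutive primes `p_s`, `p_(s+1)` are congruent to `r` modulo `q` and have
the difference `q w` -/
def IsGap (q : ℕ) (r w : ℤ) : Prop :=
  {s : ℕ | (Nat.nth Nat.Prime s : ℤ) ≡ r [ZMOD q] ∧
    (Nat.nth Nat.Prime (s + 1) : ℤ) - Nat.nth Nat.Prime s = q * w}.Infinite

/-- For every even `q` and every `r` prime to `q` there is `E ∈ {1, 2, 3}` such that every multiple of `E` is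
`a + b - c` or `c - a - b` with `a`, `b`, `c` arbitrarily large such that `q a`, `q b`, `q c` are gaps between
consecutive primes `≡ r (mod q)` infinitely often; and if `E ≠ 1`, then for `g = E`, or `E = 3` and `g = 9`,
there are arbitrarily long strings `d, d + g, d + 2 g, …, d + L g` all of whose members have this property,
starting at a multiple `d ≥ M` of an arbitrary `M`. -/
theorem result (q : ℕ) (r : ℤ) (hq : 1 ≤ q) (hq2 : Even q) (hqr : IsCoprime r (q : ℤ)) :
    ∃ E : ℤ, (E = 1 ∨ E = 2 ∨ E = 3) ∧
      (∀ n C : ℤ, ∃ a b c : ℤ, C ≤ a ∧ C ≤ b ∧ C ≤ c ∧ IsGap q r a ∧ IsGap q r b ∧ IsGap q r c ∧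
        (E * n = a + b - c ∨ E * n = c - a - b)) ∧
      (E ≠ 1 → ∃ g : ℤ, (g = E ∨ (E = 3 ∧ g = 9)) ∧ ∀ L M : ℕ, 0 < M →
        ∃ d : ℤ, (M : ℤ) ≤ d ∧ (M : ℤ) ∣ d ∧ ∀ i ≤ L, IsGap q r (d + g * i)) := by
  obtain ⟨E, hE, h1, h2⟩ := Pool.Agent.N790.GS.main q r hq hq2.two_dvd hqr
  refine ⟨E, hE, fun n C => ?_, fun hE1 => ?_⟩
  · obtain ⟨a, b, c, hCa, hCb, hCc, ha, hb, hc, habc⟩ := h1 n C
    exact ⟨a, b, c, hCa, hCb, hCc, Pool.Agent.N790.GS.conv hq ha, Pool.Agent.N790.GS.conv hq hb,
      Pool.Agent.N790.GS.conv hq hc, habc⟩
  · obtain ⟨g, hg, h3⟩ := h2 hE1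
    refine ⟨g, hg, fun L M hM => ?_⟩
    obtain ⟨d, hd1, hd2, hd3⟩ := h3 L M hM
    exact ⟨d, hd1, hd2, fun i hi => Pool.Agent.N790.GS.conv hq (hd3 i hi)⟩

end Pool.Agent.Results.MP_3ec731_nt.ThreeGapsOrLongStrings
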